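import Pool.Agent.Lib.P332aa0.HOne

set_option autoImplicit false

open MeasureTheory Filter Topology
open scoped ENNReal NNReal

namespace Pool.Agent.Results.MP_332aa0_an.SharpThreshold

open Pool.Agent.Lib.P332aa0

/-- The exact critical rate of the modulus of continuity for (weak) `L_p` convergence of the Walsh
logarithmic means `L_k f`.
(1) If `0 < p < 1` and `ω_{H_p}(1/2^n, f) = o(n / 2^{n(1/p-1)})`, then `f` has an a.e. limit `F` and
`∫ |L_k f - F|^p → 0`.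
(2) There is one real-valued martingale `f` which for every `0 < p < 1` lies in `H_p`, satisfies
`ω_{H_p}(1/2^n, f) = O(n / 2^{n(1/p-1)})`, has an a.e. limit `F`, and
`‖L_k f - F‖_{weak-L_p}` does not tend to `0`.
(3) For `p = 1` no rate is needed: every `f ∈ H_1` has an a.e. limit `F` and
`‖L_k f - F‖_{weak-L_1} → 0`. -/
theorem result :
    (∀ p : ℝ, 0 < p → p < 1 → ∀ f : ℕ → G → ℂ, Martingale f Fil μ →
      (∀ ε > 0, ∀ᶠ n : ℕ in atTop,
        omega p n f ≤ ENNReal.ofReal (ε * n / 2 ^ ((n : ℝ) * (1 / p - 1)))) →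
      ∃ F : G → ℂ, Measurable F ∧ (∀ᵐ x ∂μ, Tendsto (fun n => f n x) atTop (𝓝 (F x))) ∧
        Tendsto (fun k => ∫⁻ x, ‖L k f x - F x‖ₑ ^ p ∂μ) atTop (𝓝 0)) ∧
    (∃ f : ℕ → G → ℂ, Martingale f Fil μ ∧ (∀ n x, (f n x).im = 0) ∧
      ∃ F : G → ℂ, Measurable F ∧ (∀ᵐ x ∂μ, Tendsto (fun n => f n x) atTop (𝓝 (F x))) ∧
      ∀ p : ℝ, 0 < p → p < 1 → HpNorm p f < ⊤ ∧
        (∃ C : ℝ, ∀ n : ℕ, 1 ≤ n →
          omega p n f ≤ ENNReal.ofReal (C * n / 2 ^ ((n : ℝ) * (1 / p - 1)))) ∧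
        ¬ Tendsto (fun k => weakNorm p (fun x => L k f x - F x)) atTop (𝓝 0)) ∧
    (∀ f : ℕ → G → ℂ, Martingale f Fil μ → HpNorm 1 f < ⊤ →
      ∃ F : G → ℂ, Measurable F ∧ (∀ᵐ x ∂μ, Tendsto (fun n => f n x) atTop (𝓝 (F x))) ∧
        Tendsto (fun k => weakNorm 1 (fun x => L k f x - F x)) atTop (𝓝 0)) := by
  refine ⟨fun p hp hp1 f hf h => less_main hp hp1 hf h, ?_, fun f hf h => one_main hf h⟩
  have hω : Tendsto (fun n => omega (1 / 2) n exC) atTop (𝓝 0) := by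
    obtain ⟨C, hC⟩ := omega_exC_bigO (p := 1 / 2) (by norm_num) (by norm_num)
    have h1 : Tendsto (fun n : ℕ => ENNReal.ofReal (C * n / 2 ^ ((n : ℝ) * (1 / (1 / 2) - 1))))
        atTop (𝓝 0) := by
      have h2 : Tendsto (fun n : ℕ => (n : ℝ) * (1 / 2 : ℝ) ^ n) atTop (𝓝 0) :=
        tendsto_self_mul_const_pow_of_lt_one (by norm_num) (by norm_num)
      have h3 := h2.const_mul C
      rw [mul_zero] at h3
      have h4 : Tendsto (fun n : ℕ => C * n / (2:ℝ) ^ ((n : ℝ) * (1 / (1 / 2) - 1))) atTop (𝓝 0) := by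
        refine h3.congr fun n => ?_
        have e1 : ((n : ℝ) * (1 / (1 / 2) - 1)) = n := by norm_num
        rw [e1, Real.rpow_natCast, one_div_pow]
        field_simp
      have := ENNReal.tendsto_ofReal h4
      rwa [ENNReal.ofReal_zero] at this
    refine tendsto_of_tendsto_of_tendsto_of_le_of_le' tendsto_const_nhds h1
      (Filter.Eventually.of_forall fun _ => zero_le) ?_
    filter_upwards [eventually_ge_atTop 1] with n hn
    exact hC n hn
  obtain ⟨F, hFm, hF⟩ := exists_limit (p := 1 / 2) (by norm_num) mart_exC hω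
  exact ⟨exC, martingale_of_mart mart_exC, fun n x => Complex.ofReal_im _, F, hFm, hF,
    fun p hp hp1 => ⟨HpNorm_exC hp hp1, omega_exC_bigO hp hp1, not_tendsto_exC hp hF⟩⟩

end Pool.Agent.Results.MP_332aa0_an.SharpThreshold
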